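import Pool.Agent.W907.FreeSet.Final

set_option autoImplicit false

/-!
# No free set of size `λ⁺` for strongly almost disjoint set mappings, `λ` singular

Idea of the proof. Let `K` be a well-order of type `λ⁺`. Write `λ` as the supremum of `λ_i`,
`i < cf λ`, and every initial segment `Iio α` as the increasing union of sets `D i α` of size at
most `λ_i`, so that every sequence of sets of size `λ_i` is caught by `D i α` for all large `α` and
`i`. A guessing argument (using `2 ^ λ = λ⁺` and that `λ` is a strong limit) gives for every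
`i` ladders `E i δ` of length `λ_i⁺` such that every set which is caught contains one of them. The
set `f α` is the union of sets `X α i` of size at most `λ_i` which meet all the ladders `E i δ`,
`δ ∈ D i α`, and are disjoint from `f β` for `β ∈ D i α`; they are chosen by induction.
-/

namespace Pool.Agent.Results.MP_dbf0a5_lc.SingularAllEta

open Cardinal

universe u

/-- The relation `(κ, η, θ) → ι`: if `f` is a set mapping of order `κ` on a set `S` of cardinality
`κ`, and the intersection of any `η` of the sets `f x` has cardinality less than `θ`, then there is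
a free set of cardinality `ι`. -/
def Arrow (κ η θ ι : Cardinal.{u}) : Prop :=
  ∀ S : Type u, #S = κ → ∀ f : S → Set S, (∀ x, x ∉ f x) → (∀ x, #(f x) < κ) →
    (∀ X : Set S, #X = η → #(⋂ x ∈ X, f x : Set S) < θ) →
    ∃ Y : Set S, #Y = ι ∧ ∀ x ∈ Y, ∀ y ∈ Y, x ≠ y → x ∉ f y

theorem aux {lam : Cardinal.{u}} (hs : lam.IsSingular)
    (hl : ∀ κ < lam, (2 : Cardinal.{u}) ^ κ < lam)
    (hpow : (2 : Cardinal.{u}) ^ lam = Order.succ lam) {η : Cardinal.{u}} (hη : 2 ≤ η) :
    ¬ Arrow (Order.succ lam) η lam (Order.succ lam) := by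
  intro hA
  have hS : #((Order.succ lam).out) = Order.succ lam := Cardinal.mk_out _
  obtain ⟨f, h1, h2, h3, h4⟩ := Pool.Agent.W907.FreeSet.mapping hs hl hpow _ hS
  obtain ⟨Y, hY, hfree⟩ := hA _ hS f h1 (fun x => Order.lt_succ_iff.2 (h2 x)) (by
    intro X hX
    have h5 : (2 : Cardinal.{u}) ≤ #X := by rw [hX]; exact hη
    obtain ⟨x, y, hxy⟩ := Cardinal.two_le_iff.1 h5
    refine lt_of_le_of_lt (Cardinal.mk_le_mk_of_subset ?_)
      (h3 x.1 y.1 (fun h => hxy (Subtype.ext h)))
    intro z hz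
    simp only [Set.mem_iInter] at hz
    exact ⟨hz x.1 x.2, hz y.1 y.2⟩)
  have h6 := h4 Y hfree
  rw [hY] at h6
  exact absurd h6 (not_le.2 (Order.lt_succ lam))

/-- For every singular strong limit cardinal `λ` with `2 ^ λ = λ⁺` (so under GCH for every singular
cardinal `λ`) and every `η ≥ 2` the relation `(λ⁺, η, λ) → λ⁺` fails. In particular under GCH
the relation `(ℵ_{ω+1}, η, ℵ_ω) → ℵ_{ω+1}` fails for all `η ≥ 2`. -/
theorem result :
    (∀ lam : Cardinal.{u}, lam.IsSingular → (∀ κ < lam, (2 : Cardinal.{u}) ^ κ < lam) →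
      (2 : Cardinal.{u}) ^ lam = Order.succ lam →
      ∀ η : Cardinal.{u}, 2 ≤ η → ¬ Arrow (Order.succ lam) η lam (Order.succ lam)) ∧
    ((∀ κ : Cardinal.{u}, ℵ₀ ≤ κ → (2 : Cardinal.{u}) ^ κ = Order.succ κ) →
      (∀ lam : Cardinal.{u}, lam.IsSingular →
        ∀ η : Cardinal.{u}, 2 ≤ η → ¬ Arrow (Order.succ lam) η lam (Order.succ lam)) ∧
      ∀ η : Cardinal.{u}, 2 ≤ η → ¬ Arrow (aleph (Ordinal.omega0 + 1)) η (aleph Ordinal.omega0)
        (aleph (Ordinal.omega0 + 1))) := by
  have key : (∀ κ : Cardinal.{u}, ℵ₀ ≤ κ → (2 : Cardinal.{u}) ^ κ = Order.succ κ) →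
      ∀ lam : Cardinal.{u}, lam.IsSingular →
        ∀ η : Cardinal.{u}, 2 ≤ η → ¬ Arrow (Order.succ lam) η lam (Order.succ lam) := by
    intro hG lam hs η hη
    refine aux hs ?_ (hG lam hs.aleph0_le) hη
    intro κ hκ
    rcases lt_or_ge κ ℵ₀ with h | h
    · exact (Cardinal.power_lt_aleph0 (by norm_num [Cardinal.ofNat_lt_aleph0]) h).trans_le
        hs.aleph0_le
    · rw [hG κ h]
      exact hs.isSuccLimit.succ_lt hκ
  refine ⟨fun lam hs hl hpow η hη => aux hs hl hpow hη, fun hG => ⟨key hG, ?_⟩⟩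
  intro η hη
  have h := key hG (aleph Ordinal.omega0) Cardinal.isSingular_aleph_omega0 η hη
  rwa [Cardinal.succ_aleph] at h

end Pool.Agent.Results.MP_dbf0a5_lc.SingularAllEta
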